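import Mathlib

/-!
Additive 2-bases of finite abelian groups: the energy inequality for the pairs which do not lie in
popular reflections.
-/

set_option autoImplicit false
set_option linter.unusedSectionVars false

open scoped Pointwise
open Finset

namespace Pool.Agent.P8H54.BS

/-- The number of the ordered representations `y = a + b` with `a, b` in `A`. -/
def rep {G : Type} [AddCommGroup G] [DecidableEq G] (A : Finset G) (y : G) : ℕ :=
  (A.filter fun a => y - a ∈ A).card

open Classical in
/-- The ordered pairs of different elements `a, c` of `A` such that all elements `y` with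
`y - a ∈ A` and `y - c ∈ A` have at most `K` representations. -/
noncomputable def calm {G : Type} [AddCommGroup G] [DecidableEq G] (A : Finset G) (K : ℕ) :
    Finset (G × G) :=
  (A ×ˢ A).filter fun p => p.1 ≠ p.2 ∧ ∀ y, y - p.1 ∈ A → y - p.2 ∈ A → rep A y ≤ K

open Classical in
theorem mem_calm {G : Type} [AddCommGroup G] [DecidableEq G] {A : Finset G} {K : ℕ} {p : G × G} :
    p ∈ calm A K ↔ (p.1 ∈ A ∧ p.2 ∈ A) ∧ p.1 ≠ p.2 ∧
      ∀ y, y - p.1 ∈ A → y - p.2 ∈ A → rep A y ≤ K := by
  unfold calm
  rw [mem_filter, mem_product]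

variable {G : Type} [AddCommGroup G] [Fintype G] [DecidableEq G] {A : Finset G}

theorem sum_rep (A : Finset G) : ∑ y, rep A y = A.card * A.card := by
  unfold rep
  simp only [card_filter]
  rw [sum_comm]
  have h : ∀ a ∈ A, ∑ y, (if y - a ∈ A then 1 else 0) = A.card := by
    intro a _
    rw [Fintype.sum_equiv (Equiv.subRight a) (fun y => if y - a ∈ A then 1 else 0)
      (fun y => if y ∈ A then 1 else 0) (fun y => rfl)]
    simp
  rw [sum_congr rfl h, sum_const, smul_eq_mul]

/-- the exceptional elements -/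
def exc (A : Finset G) : Finset G := insert 0 (A ∪ A.image fun a => a + a)

theorem card_exc (A : Finset G) : (exc A).card ≤ 2 * A.card + 1 := by
  unfold exc
  refine (card_insert_le _ _).trans ?_
  have h1 := card_union_le A (A.image fun a => a + a)
  have h2 : (A.image fun a => a + a).card ≤ A.card := card_image_le
  omega

theorem two_le_rep (hA : ∀ g : G, ∃ h : ℕ, h ≤ 2 ∧ g ∈ h • A) {y : G} (hy : y ∉ exc A) :
    2 ≤ rep A y := by
  unfold exc at hy
  rw [mem_insert, mem_union, mem_image, not_or, not_or] at hy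
  obtain ⟨h0, h1, h2⟩ := hy
  obtain ⟨h, hh, hm⟩ := hA y
  interval_cases h
  · rw [zero_nsmul, Finset.mem_zero] at hm
    exact absurd hm h0
  · rw [one_nsmul] at hm
    exact absurd hm h1
  · rw [two_nsmul, mem_add] at hm
    obtain ⟨a, ha, b, hb, hab⟩ := hm
    have hne : a ≠ b := by
      rintro rfl
      exact h2 ⟨a, ha, hab⟩
    have hsub : ({a, b} : Finset G) ⊆ A.filter fun x => y - x ∈ A := by
      intro x hx
      rw [mem_insert, mem_singleton] at hx
      rw [mem_filter]
      rcases hx with rfl | rfl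
      · exact ⟨ha, by rw [← hab, add_sub_cancel_left]; exact hb⟩
      · exact ⟨hb, by rw [← hab, add_sub_cancel_right]; exact ha⟩
    have := card_le_card hsub
    rw [card_pair hne] at this
    exact this

/-- the excess of the representations -/
theorem excess (hA : ∀ g : G, ∃ h : ℕ, h ≤ 2 ∧ g ∈ h • A) :
    ∑ y, max ((rep A y : ℝ) - 2) 0 ≤
      (A.card : ℝ) ^ 2 + 4 * A.card + 2 - 2 * (Fintype.card G : ℝ) := by
  have h1 : ∀ y : G, max ((rep A y : ℝ) - 2) 0 ≤
      ((rep A y : ℝ) - 2) + 2 * (if y ∈ exc A then 1 else 0) := by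
    intro y
    by_cases hy : y ∈ exc A
    · rw [if_pos hy]
      have : (0 : ℝ) ≤ rep A y := Nat.cast_nonneg _
      apply max_le <;> linarith
    · rw [if_neg hy]
      have h2 : (2 : ℝ) ≤ rep A y := by exact_mod_cast two_le_rep hA hy
      apply max_le <;> linarith
  refine (sum_le_sum fun y _ => h1 y).trans ?_
  rw [sum_add_distrib, sum_sub_distrib, ← mul_sum, ← Nat.cast_sum, sum_rep]
  have h3 : ∑ y : G, (if y ∈ exc A then (1 : ℝ) else 0) = ((exc A).card : ℝ) := by
    rw [sum_ite_mem, univ_inter, sum_const, nsmul_eq_mul, mul_one]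
  have h4 : ((exc A).card : ℝ) ≤ 2 * A.card + 1 := by exact_mod_cast card_exc A
  rw [h3, sum_const, card_univ, nsmul_eq_mul]
  push_cast
  nlinarith

/-- the elements `a` of `A` with `y - a ∈ A` -/
def fib (A : Finset G) (y : G) : Finset G := A.filter fun a => y - a ∈ A

theorem mem_fib {y a : G} : a ∈ fib A y ↔ a ∈ A ∧ y - a ∈ A := mem_filter

theorem sub_mem_fib {y a : G} (h : a ∈ fib A y) : y - a ∈ fib A y := by
  rw [mem_fib] at h ⊢
  exact ⟨h.2, by rw [sub_sub_cancel]; exact h.1⟩

theorem card_erase2 {y a : G} (h : a ∈ fib A y) :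
    ((((fib A y).erase a).erase (y - a)).card : ℝ) =
      (rep A y : ℝ) - 2 + (if a + a = y then 1 else 0) := by
  have hr : (fib A y).card = rep A y := rfl
  have h1 : ((fib A y).erase a).card + 1 = rep A y := by rw [card_erase_add_one h, hr]
  by_cases hya : a + a = y
  · have h2 : y - a = a := by rw [← hya, add_sub_cancel_right]
    rw [if_pos hya, h2, erase_idem]
    have : ((((fib A y).erase a).card : ℝ)) + 1 = rep A y := by exact_mod_cast h1
    linarith
  · rw [if_neg hya]
    have h2 : y - a ∈ (fib A y).erase a := by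
      rw [mem_erase]
      exact ⟨fun h3 => hya (by rw [sub_eq_iff_eq_add] at h3; exact h3.symm), sub_mem_fib h⟩
    have h3 : (((fib A y).erase a).erase (y - a)).card + 1 + 1 = rep A y := by
      rw [card_erase_add_one h2, h1]
    have : (((((fib A y).erase a).erase (y - a)).card : ℝ)) + 1 + 1 = rep A y := by
      exact_mod_cast h3
    linarith

/-- the nontrivial coincidences of sums -/
def tgt (A : Finset G) (K : ℕ) : Finset (Σ _ : G, Σ _ : G, G) :=
  univ.sigma fun y => if rep A y ≤ K then
    (fib A y).sigma fun a => ((fib A y).erase a).erase (y - a) else ∅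

theorem card_tgt (hA : ∀ g : G, ∃ h : ℕ, h ≤ 2 ∧ g ∈ h • A) (K : ℕ) :
    ((tgt A K).card : ℝ) ≤ K * ((A.card : ℝ) ^ 2 + 4 * A.card + 2 - 2 * (Fintype.card G : ℝ)) +
      A.card := by
  unfold tgt
  rw [card_sigma, Nat.cast_sum]
  have h1 : ∀ y : G, (((if rep A y ≤ K then
      (fib A y).sigma fun a => ((fib A y).erase a).erase (y - a) else ∅ :
        Finset (Σ _ : G, G)).card : ℕ) : ℝ) ≤
      K * max ((rep A y : ℝ) - 2) 0 + ((A.filter fun a => a + a = y).card : ℝ) := by
    intro y
    have h0 : (0 : ℝ) ≤ K * max ((rep A y : ℝ) - 2) 0 := by positivity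
    split_ifs with hK
    · rw [card_sigma, Nat.cast_sum, sum_congr rfl fun a ha => card_erase2 ha, sum_add_distrib,
        sum_const, nsmul_eq_mul]
      have h2 : ∑ a ∈ fib A y, (if a + a = y then (1 : ℝ) else 0) ≤
          ((A.filter fun a => a + a = y).card : ℝ) := by
        rw [card_filter]
        push_cast
        exact sum_le_sum_of_subset_of_nonneg (filter_subset _ _) fun a _ _ => by
          split_ifs <;> norm_num
      have h3 : ((fib A y).card : ℝ) * ((rep A y : ℝ) - 2) ≤ K * max ((rep A y : ℝ) - 2) 0 := by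
        have h4 : ((fib A y).card : ℝ) = rep A y := rfl
        have h5 : (rep A y : ℝ) ≤ K := by exact_mod_cast hK
        have h6 : (0 : ℝ) ≤ rep A y := Nat.cast_nonneg _
        rw [h4]
        calc (rep A y : ℝ) * ((rep A y : ℝ) - 2) ≤ rep A y * max ((rep A y : ℝ) - 2) 0 :=
              mul_le_mul_of_nonneg_left (le_max_left _ _) h6
          _ ≤ K * max ((rep A y : ℝ) - 2) 0 :=
              mul_le_mul_of_nonneg_right h5 (le_max_right _ _)
      linarith
    · rw [card_empty, Nat.cast_zero]
      positivity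
  refine (sum_le_sum fun y _ => h1 y).trans ?_
  rw [sum_add_distrib, ← mul_sum]
  have h2 : ∑ y : G, ((A.filter fun a => a + a = y).card : ℝ) = A.card := by
    rw [← Nat.cast_sum]
    congr 1
    exact (card_eq_sum_card_fiberwise fun a _ => Finset.mem_coe.2 (mem_univ (a + a))).symm
  rw [h2]
  have h3 := mul_le_mul_of_nonneg_left (excess hA) (Nat.cast_nonneg (α := ℝ) K)
  linarith

/-- **The energy inequality.** -/
theorem main (hA : ∀ g : G, ∃ h : ℕ, h ≤ 2 ∧ g ∈ h • A) (K : ℕ) :
    ((calm A K).card : ℝ) ^ 2 ≤ (Fintype.card G : ℝ) * ((calm A K).card +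
      K * ((A.card : ℝ) ^ 2 + 4 * A.card + 2 - 2 * (Fintype.card G : ℝ)) + A.card) := by
  set Q := calm A K with hQ
  have h1 : (Q.card : ℝ) = ∑ d : G, ((Q.filter fun p => p.1 - p.2 = d).card : ℝ) := by
    rw [← Nat.cast_sum]
    congr 1
    exact card_eq_sum_card_fiberwise fun p _ => Finset.mem_coe.2 (mem_univ (p.1 - p.2))
  have h2 := sq_sum_le_card_mul_sum_sq (s := (univ : Finset G))
    (f := fun d => ((Q.filter fun p => p.1 - p.2 = d).card : ℝ))
  rw [← h1, card_univ] at h2
  refine h2.trans (mul_le_mul_of_nonneg_left ?_ (Nat.cast_nonneg _))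
  set T := (Q ×ˢ Q).filter fun t => t.1.1 - t.1.2 = t.2.1 - t.2.2 with hT
  have h3 : ∑ d : G, ((Q.filter fun p => p.1 - p.2 = d).card : ℝ) ^ 2 = (T.card : ℝ) := by
    have h4 : ∀ d : G, (Q.filter fun p => p.1 - p.2 = d).card ^ 2 =
        (T.filter fun t => t.1.1 - t.1.2 = d).card := by
      intro d
      rw [sq, ← card_product]
      congr 1
      ext t
      rw [mem_product, mem_filter, mem_filter, mem_filter, hT, mem_filter, mem_product]
      constructor
      · rintro ⟨⟨h5, h6⟩, h7, h8⟩
        exact ⟨⟨⟨h5, h7⟩, h6.trans h8.symm⟩, h6⟩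
      · rintro ⟨⟨⟨h5, h6⟩, h7⟩, h8⟩
        exact ⟨⟨h5, h8⟩, h6, h7.symm.trans h8⟩
    have h5 : T.card = ∑ d : G, (T.filter fun t => t.1.1 - t.1.2 = d).card :=
      card_eq_sum_card_fiberwise fun t _ => Finset.mem_coe.2 (mem_univ (t.1.1 - t.1.2))
    rw [h5, Nat.cast_sum]
    refine sum_congr rfl fun d _ => ?_
    rw [← h4]
    push_cast
    rfl
  rw [h3]
  have h4 : T.card = (T.filter fun t => t.1 = t.2).card + (T.filter fun t => ¬ t.1 = t.2).card :=
    (card_filter_add_card_filter_not (s := T) (fun t => t.1 = t.2)).symm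
  have h5 : (T.filter fun t => t.1 = t.2).card ≤ Q.card := by
    refine card_le_card_of_injOn (fun t => t.1) ?_ ?_
    · intro t ht
      rw [mem_coe, mem_filter, hT, mem_filter, mem_product] at ht
      exact ht.1.1.1
    · intro t ht t' ht' h
      rw [mem_coe, mem_filter] at ht ht'
      have e1 : t.1 = t'.1 := h
      exact Prod.ext e1 (by rw [← ht.2, ← ht'.2, e1])
  have h6 : (T.filter fun t => ¬ t.1 = t.2).card ≤ (tgt A K).card := by
    refine card_le_card_of_injOn (fun t => ⟨t.1.1 + t.2.2, t.1.1, t.2.1⟩) ?_ ?_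
    · rintro ⟨⟨a, c⟩, ⟨a', c'⟩⟩ ht
      rw [mem_coe, mem_filter, hT, mem_filter, mem_product, hQ, mem_calm, mem_calm] at ht
      obtain ⟨⟨⟨⟨⟨ha, hc⟩, hac, hK⟩, ⟨ha', hc'⟩, hac', -⟩, hd⟩, hne⟩ := ht
      simp only at ha hc hac hK ha' hc' hac' hd hne
      have hy : a + c' = a' + c := by
        have : a = a' - c' + c := by rw [← hd]; abel
        rw [this]; abel
      have e1 : a + c' - a = c' := add_sub_cancel_left _ _
      have e2 : a + c' - c = a' := by rw [hy, add_sub_cancel_right]
      have e3 : a + c' - a' = c := by rw [hy, add_sub_cancel_left]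
      have hr : rep A (a + c') ≤ K := hK _ (by rw [e1]; exact hc') (by rw [e2]; exact ha')
      rw [mem_coe]
      unfold tgt
      rw [mem_sigma]
      refine ⟨mem_univ _, ?_⟩
      simp only
      rw [if_pos hr, mem_sigma]
      refine ⟨mem_fib.2 ⟨ha, by rw [e1]; exact hc'⟩, ?_⟩
      simp only
      rw [e1, mem_erase, mem_erase]
      refine ⟨hac', ?_, mem_fib.2 ⟨ha', by rw [e3]; exact hc⟩⟩
      intro h
      apply hne
      rw [h] at hd
      have : c = c' := sub_right_injective hd
      rw [h, this]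
    · rintro ⟨⟨a, c⟩, ⟨a', c'⟩⟩ ht ⟨⟨b, e⟩, ⟨b', e'⟩⟩ ht' h
      rw [mem_coe, mem_filter, hT, mem_filter] at ht ht'
      have hd := ht.1.2
      have hd' := ht'.1.2
      simp only [Sigma.mk.injEq, heq_eq_eq] at h hd hd'
      obtain ⟨q1, q2, q3⟩ := h
      subst q2
      subst q3
      have q4 : c' = e' := add_left_cancel q1
      subst q4
      have q5 : c = e := sub_right_injective (hd.trans hd'.symm)
      rw [q5]
  have h7 := card_tgt hA K
  have h8 : (T.card : ℝ) ≤ Q.card + (tgt A K).card := by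
    rw [h4]; exact_mod_cast add_le_add h5 h6
  linarith

end Pool.Agent.P8H54.BS
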